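import Mathlib

/-!
# MP_369d67: the Möbius image `S_{6,3,2} = {(6n+3)/(6n+2) : n ∈ ℕ}` is a set of
topological multiplicative recurrence, although `6 ∤ 3` and `6 ∤ 2`.
-/

universe u

namespace Pool.Agent.Results.MP_369d67_an.MoebiusRecurrence

/-- The set `S_{a,b,d} = {(an+b)/(an+d) : n ∈ ℕ, an+b > 0, an+d > 0}` of positive rationals,
where `ℕ = {1,2,…}`. -/
def moebiusSet (a : ℕ) (b d : ℤ) : Set {q : ℚ // 0 < q} :=
  {r | ∃ n : ℕ, 1 ≤ n ∧ 0 < (a : ℤ) * n + b ∧ 0 < (a : ℤ) * n + d ∧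
    (r : ℚ) = ((a : ℚ) * n + b) / ((a : ℚ) * n + d)}

/-- A topological `(ℚ^{>0},×)`-system: a compact metric space with a family `T_r` of continuous
self-maps satisfying `T_{rs} = T_r ∘ T_s`. -/
structure IsMultSystem (X : Type*) [MetricSpace X] [CompactSpace X]
    (T : {q : ℚ // 0 < q} → X → X) : Prop where
  cont : ∀ r, Continuous (T r)
  mul : ∀ r s, T (r * s) = T r ∘ T s

/-- The system is minimal: every orbit is dense. -/
def IsMinimalSystem (X : Type*) [MetricSpace X] [CompactSpace X]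
    (T : {q : ℚ // 0 < q} → X → X) : Prop :=
  ∀ x : X, Dense {y : X | ∃ r, y = T r x}

/-- `R` is a set of topological multiplicative recurrence. -/
def IsTopMultRecurrence (R : Set {q : ℚ // 0 < q}) : Prop :=
  ∀ (X : Type u) [MetricSpace X] [CompactSpace X] (T : {q : ℚ // 0 < q} → X → X),
    IsMultSystem X T → IsMinimalSystem X T →
      ∀ U : Set X, IsOpen U → U.Nonempty → ∃ r ∈ R, (U ∩ (T r) ⁻¹' U).Nonempty

/-- the arithmetic condition on pairs: `x = d(6n+2)`, `y = d(6n+3)`. -/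
def Good (x y : ℕ) : Prop := ∃ n d : ℕ, 1 ≤ n ∧ x = d * (6 * n + 2) ∧ y = d * (6 * n + 3)

lemma step (s : Finset ℕ) (hpos : ∀ x ∈ s, 0 < x)
    (hs : ∀ x ∈ s, ∀ y ∈ s, x < y → Good x y) :
    ∃ s' : Finset ℕ, s'.card = s.card + 1 ∧ (∀ x ∈ s', 0 < x) ∧
      ∀ x ∈ s', ∀ y ∈ s', x < y → Good x y := by
  classical
  obtain ⟨D, hD⟩ : ∃ D : ℕ, D = ∏ x ∈ s, x := ⟨_, rfl⟩
  have hD0 : 0 < D := by rw [hD]; exact Finset.prod_pos hpos
  have hdvd : ∀ x ∈ s, x ∣ D := fun x hx => by rw [hD]; exact Finset.dvd_prod_of_mem _ hx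
  obtain ⟨a, ha⟩ : ∃ a : ℕ, ∀ x ∈ s, 3 * D * x < 2 ^ a := by
    refine ⟨∑ x ∈ s, 3 * D * x, fun x hx => ?_⟩
    calc 3 * D * x ≤ ∑ x ∈ s, 3 * D * x :=
          Finset.single_le_sum (f := fun x => 3 * D * x) (fun _ _ => Nat.zero_le _) hx
      _ < 2 ^ _ := Nat.lt_two_pow_self
  have hex : ∀ x : ℕ, ∃ v o : ℕ, x ∈ s → Odd o ∧ 3 * D * x + 2 ^ a = 2 ^ v * o := by
    intro x
    by_cases hx : x ∈ s
    · obtain ⟨k, m, hm, h⟩ := Nat.exists_eq_two_pow_mul_odd (n := 3 * D * x + 2 ^ a) (by positivity)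
      exact ⟨k, m, fun _ => ⟨hm, h⟩⟩
    · exact ⟨0, 0, fun h => absurd h hx⟩
  choose v o hvo using hex
  have hva : ∀ x ∈ s, v x < a := by
    intro x hx
    by_contra hcon
    push Not at hcon
    have h1 : 2 ^ a ∣ 3 * D * x + 2 ^ a := by
      rw [(hvo x hx).2]; exact Dvd.dvd.mul_right (pow_dvd_pow 2 hcon) _
    have h2 : 2 ^ a ∣ 3 * D * x := (Nat.dvd_add_left (dvd_refl _)).1 h1
    have h3 : 0 < 3 * D * x := by have := hpos x hx; positivity
    exact absurd (Nat.le_of_dvd h3 h2) (not_le.2 (ha x hx))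
  obtain ⟨F, hF⟩ : ∃ F : ℕ, F = 18 * D ^ 2 * 2 ^ a := ⟨_, rfl⟩
  obtain ⟨E, hE⟩ : ∃ E : ℕ, E = ∏ x ∈ s, o x := ⟨_, rfl⟩
  have hF0 : 0 < F := by rw [hF]; positivity
  have hE0 : 0 < E := by
    rw [hE]; exact Finset.prod_pos fun x hx => (hvo x hx).1.pos
  have hcop : Nat.Coprime F E := by
    rw [hE]
    refine Nat.Coprime.prod_right fun x hx => ?_
    refine Nat.coprime_of_dvd fun p hp h1 h2 => ?_
    obtain ⟨hodd, heq⟩ := hvo x hx
    have hp2 : p ≠ 2 := by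
      rintro rfl
      exact (Nat.not_even_iff_odd.2 hodd) (even_iff_two_dvd.2 h2)
    have hnot : ¬ p ∣ 2 ^ a := fun h => hp2 ((Nat.prime_dvd_prime_iff_eq hp Nat.prime_two).1
      (hp.dvd_of_dvd_pow h))
    have h3 : p ∣ 3 * D * x + 2 ^ a := by rw [heq]; exact Dvd.dvd.mul_left h2 _
    have h4 : p ∣ 3 * D := by
      rw [hF] at h1
      rcases (hp.dvd_mul).1 h1 with h | h
      · rcases (hp.dvd_mul).1 h with h | h
        · have : p ∣ 3 := by
            have h18 : (18 : ℕ) = 2 * 3 ^ 2 := by norm_num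
            rw [h18] at h
            rcases (hp.dvd_mul).1 h with h | h
            · exact absurd ((Nat.prime_dvd_prime_iff_eq hp Nat.prime_two).1 h) hp2
            · exact hp.dvd_of_dvd_pow h
          exact Dvd.dvd.mul_right this _
        · exact Dvd.dvd.mul_left (hp.dvd_of_dvd_pow h) _
      · exact absurd h hnot
    exact hnot ((Nat.dvd_add_right (Dvd.dvd.mul_right h4 x)).1 h3)
  obtain ⟨M0, hM0F, hM0E⟩ : ∃ M0 : ℕ, M0 ≡ 0 [MOD F] ∧ M0 ≡ 2 ^ a [MOD E] :=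
    ⟨_, (Nat.chineseRemainder hcop 0 (2 ^ a)).2⟩
  obtain ⟨B, hB⟩ : ∃ B : ℕ, B = 2 ^ a + ∑ x ∈ s, 3 * (3 * D * x + 2 ^ a) := ⟨_, rfl⟩
  obtain ⟨M, hM⟩ : ∃ M : ℕ, M = M0 + F * E * (B + 1) := ⟨_, rfl⟩
  have hMB : B < M := by
    have : 1 * (B + 1) ≤ F * E * (B + 1) := Nat.mul_le_mul_right _ (Nat.mul_pos hF0 hE0)
    omega
  have hMF : F ∣ M := by
    rw [hM]
    refine dvd_add ((Nat.modEq_zero_iff_dvd).1 hM0F) ?_
    exact Dvd.dvd.mul_right (Dvd.dvd.mul_right (dvd_refl _) _) _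
  have hME : M ≡ 2 ^ a [MOD E] := by
    rw [hM]
    have : F * E * (B + 1) ≡ 0 [MOD E] :=
      (Nat.modEq_zero_iff_dvd).2 (Dvd.dvd.mul_right (Dvd.dvd.mul_left (dvd_refl _) _) _)
    simpa using hM0E.add this
  have hMa : 2 ^ a < M := by
    have : 2 ^ a ≤ B := by rw [hB]; exact Nat.le_add_right _ _
    omega
  -- the pairs with the new smallest element
  have hnew : ∀ x ∈ s, Good (M - 2 ^ a) (M + 3 * D * x) := by
    intro x hx
    obtain ⟨hodd, heq⟩ := hvo x hx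
    have h1 : o x ∣ M - 2 ^ a := by
      have : E ∣ M - 2 ^ a := (Nat.modEq_iff_dvd' hMa.le).1 hME.symm
      refine dvd_trans ?_ this
      rw [hE]; exact Finset.dvd_prod_of_mem _ hx
    have h2 : 2 ^ a ∣ M - 2 ^ a := by
      refine Nat.dvd_sub ?_ (dvd_refl _)
      refine dvd_trans ?_ hMF
      rw [hF]; exact Dvd.intro_left _ rfl
    have h3 : 2 ^ (v x + 1) ∣ M - 2 ^ a := dvd_trans (pow_dvd_pow 2 (hva x hx)) h2
    have h4 : 2 ^ (v x + 1) * o x ∣ M - 2 ^ a := by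
      refine Nat.Coprime.mul_dvd_of_dvd_of_dvd ?_ h3 h1
      exact Nat.Coprime.pow_left _ (Nat.coprime_two_left.2 hodd)
    obtain ⟨q, hq⟩ := h4
    have hq' : M - 2 ^ a = (3 * D * x + 2 ^ a) * (2 * q) := by
      rw [hq, heq]; ring
    have h3M : 3 ∣ M := dvd_trans (by rw [hF]; exact ⟨6 * D ^ 2 * 2 ^ a, by ring⟩) hMF
    have h3q : 3 ∣ 2 * q + 1 := by
      have e1 : M = 3 * (D * x * (2 * q)) + 2 ^ a * (2 * q + 1) := by
        have : M = (3 * D * x + 2 ^ a) * (2 * q) + 2 ^ a := by omega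
        rw [this]; ring
      have h5 : 3 ∣ 2 ^ a * (2 * q + 1) := by
        rw [e1] at h3M
        exact (Nat.dvd_add_right (Dvd.intro _ rfl)).1 h3M
      refine Nat.Coprime.dvd_of_dvd_mul_left ?_ h5
      exact Nat.Coprime.pow_right _ (by norm_num)
    have hbig : (3 * D * x + 2 ^ a) * 3 ≤ M - 2 ^ a := by
      have h6 : 3 * (3 * D * x + 2 ^ a) ≤ ∑ x ∈ s, 3 * (3 * D * x + 2 ^ a) :=
        Finset.single_le_sum (f := fun x => 3 * (3 * D * x + 2 ^ a))
          (fun _ _ => Nat.zero_le _) hx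
      omega
    have hq3 : 3 ≤ 2 * q := by
      rw [hq'] at hbig
      exact Nat.le_of_mul_le_mul_left hbig (by positivity)
    obtain ⟨n, hn⟩ : ∃ n, 2 * q = 6 * n + 2 := ⟨(2 * q - 2) / 6, by omega⟩
    refine ⟨n, 3 * D * x + 2 ^ a, by omega, by rw [hq', hn], ?_⟩
    have : M + 3 * D * x = (3 * D * x + 2 ^ a) * (2 * q) + (3 * D * x + 2 ^ a) := by omega
    rw [this, hn]; ring
  -- the old pairs
  have hold : ∀ x ∈ s, ∀ y ∈ s, x < y → Good (M + 3 * D * x) (M + 3 * D * y) := by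
    intro x hx y hy hxy
    obtain ⟨n, d, hn, h1, h2⟩ := hs x hx y hy hxy
    have hdD : d ∣ D := dvd_trans ⟨_, h1⟩ (hdvd x hx)
    obtain ⟨g, hg⟩ := hdD
    obtain ⟨m, hm⟩ := hMF
    have hM' : M = 3 * D * d * (6 * (g * 2 ^ a * m)) := by
      rw [hm, hF]
      have : D ^ 2 = D * (d * g) := by rw [← hg]; ring
      rw [this]; ring
    refine ⟨g * 2 ^ a * m + n, 3 * D * d, by omega, ?_, ?_⟩
    · rw [h1]; nth_rewrite 1 [hM']; ring
    · rw [h2]; nth_rewrite 1 [hM']; ring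
  have hinj : Function.Injective (fun x : ℕ => M + 3 * D * x) := by
    intro x y hxy
    have : 3 * D * x = 3 * D * y := by simpa using hxy
    exact Nat.eq_of_mul_eq_mul_left (by positivity) this
  refine ⟨insert (M - 2 ^ a) (s.image fun x => M + 3 * D * x), ?_, ?_, ?_⟩
  · rw [Finset.card_insert_of_notMem, Finset.card_image_of_injective _ hinj]
    intro h
    obtain ⟨x, hx, hxe⟩ := Finset.mem_image.1 h
    have : 0 < 2 ^ a := by positivity
    omega
  · intro x hx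
    rcases Finset.mem_insert.1 hx with rfl | hx
    · omega
    · obtain ⟨z, hz, rfl⟩ := Finset.mem_image.1 hx
      omega
  · intro x hx y hy hxy
    rcases Finset.mem_insert.1 hx with hx1 | hx1
    · rcases Finset.mem_insert.1 hy with hy1 | hy1
      · omega
      · obtain ⟨z, hz, rfl⟩ := Finset.mem_image.1 hy1
        rw [hx1]; exact hnew z hz
    · obtain ⟨w, hw, rfl⟩ := Finset.mem_image.1 hx1
      rcases Finset.mem_insert.1 hy with hy1 | hy1
      · have : 0 < 2 ^ a := by positivity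
        omega
      · obtain ⟨z, hz, rfl⟩ := Finset.mem_image.1 hy1
        refine hold w hw z hz ?_
        have : 3 * D * w < 3 * D * z := by simpa using hxy
        exact Nat.lt_of_mul_lt_mul_left this

lemma exists_set (k : ℕ) : ∃ s : Finset ℕ, s.card = k ∧ (∀ x ∈ s, 0 < x) ∧
    ∀ x ∈ s, ∀ y ∈ s, x < y → Good x y := by
  induction k with
  | zero => exact ⟨∅, by simp, by simp, by simp⟩
  | succ k ih =>
    obtain ⟨s, h1, h2, h3⟩ := ih
    obtain ⟨s', h4, h5, h6⟩ := step s h2 h3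
    exact ⟨s', by rw [h4, h1], h5, h6⟩

theorem rec632 : IsTopMultRecurrence.{u} (moebiusSet 6 3 2) := by
  classical
  intro X _ _ T hT hmin U hU hUne
  obtain ⟨x₀, hx₀⟩ := hUne
  -- the translates of `U` cover
  have hcov : (Set.univ : Set X) ⊆ ⋃ r, (T r) ⁻¹' U := by
    intro y _
    obtain ⟨z, ⟨r, hr⟩, hz⟩ := (hmin y).exists_mem_open hU ⟨x₀, hx₀⟩
    refine Set.mem_iUnion.2 ⟨r, ?_⟩
    show T r y ∈ U
    rw [← hr]; exact hz
  obtain ⟨t, ht⟩ := isCompact_univ.elim_finite_subcover (fun r => (T r) ⁻¹' U)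
    (fun r => hU.preimage (hT.cont r)) hcov
  have hcol : ∀ y : X, ∃ r ∈ t, T r y ∈ U := by
    intro y
    have := ht (Set.mem_univ y)
    simp only [Set.mem_iUnion, Set.mem_preimage] at this
    obtain ⟨r, hr, h⟩ := this
    exact ⟨r, hr, h⟩
  obtain ⟨s, hcard, hpos, hgood⟩ := exists_set (t.card + 1)
  let emb : ℕ → {q : ℚ // 0 < q} := fun n => if h : 0 < n then ⟨(n : ℚ), by exact_mod_cast h⟩ else 1
  choose c hc hcU using fun n : ℕ => hcol (T (emb n) x₀)
  obtain ⟨x, hx, y, hy, hne, hxy⟩ := Finset.exists_ne_map_eq_of_card_lt_of_maps_to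
    (s := s) (t := t) (by omega) (f := c) (fun n _ => hc n)
  have key : ∀ x ∈ s, ∀ y ∈ s, x < y → c x = c y →
      ∃ r ∈ moebiusSet 6 3 2, (U ∩ (T r) ⁻¹' U).Nonempty := by
    intro x hx y hy hlt hcxy
    obtain ⟨n, d, hn, h1, h2⟩ := hgood x hx y hy hlt
    have hx0 := hpos x hx
    have hy0 := hpos y hy
    have hd0 : 0 < d := by
      rcases Nat.eq_zero_or_pos d with h | h
      · subst h; omega
      · exact h
    refine ⟨emb y * (emb x)⁻¹, ⟨n, hn, by positivity, by positivity, ?_⟩, T (c x) (T (emb x) x₀),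
      hcU x, ?_⟩
    · have e1 : ((emb y * (emb x)⁻¹ : {q : ℚ // 0 < q}) : ℚ) = (y : ℚ) * (x : ℚ)⁻¹ := by
        simp [emb, hx0, hy0]
      rw [e1, h1, h2]
      push_cast
      have : (d : ℚ) ≠ 0 := by positivity
      field_simp
    · show T (emb y * (emb x)⁻¹) (T (c x) (T (emb x) x₀)) ∈ U
      have e2 : T (emb y * (emb x)⁻¹) (T (c x) (T (emb x) x₀)) = T (c y) (T (emb y) x₀) := by
        have m1 : ∀ r s z, T r (T s z) = T (r * s) z := fun r s z => by rw [hT.mul]; rfl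
        rw [m1, m1, m1, hcxy]
        congr 1
        calc emb y * (emb x)⁻¹ * c y * emb x = c y * emb y * ((emb x)⁻¹ * emb x) := by
              ac_rfl
          _ = c y * emb y := by rw [inv_mul_cancel, mul_one]
      rw [e2]; exact hcU y
  rcases lt_or_gt_of_ne hne with h | h
  · exact key x hx y hy h hxy
  · exact key y hy x hx h hxy.symm

/-- `S_{6,3,2}` is a set of topological multiplicative recurrence although `6` divides neither
`3` nor `2`; so the equivalence asked for in Q1 is false. -/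
theorem result :
    (IsTopMultRecurrence.{u} (moebiusSet 6 3 2)) ∧
    ¬ (∀ a : ℕ, 1 ≤ a → ∀ b d : ℤ, b ≠ d →
      (IsTopMultRecurrence.{u} (moebiusSet a b d) ↔ ((a : ℤ) ∣ b ∨ (a : ℤ) ∣ d))) := by
  refine ⟨rec632, fun h => ?_⟩
  have := (h 6 (by norm_num) 3 2 (by norm_num)).1 rec632
  norm_num at this

end Pool.Agent.Results.MP_369d67_an.MoebiusRecurrence
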